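import Pool.Agent.Helper73.RS.St

set_option autoImplicit false

namespace Pool.Agent.Helper42.RS

open Pool.Agent.Helper73.RS
open Filter Topology

private lemma add3 {m : W} (hm : IsMean m) {f g h k : ℕ → ℝ} {C : ℝ} (hf : ∀ x, |f x| ≤ C)
    (hg : ∀ x, |g x| ≤ C) (hh : ∀ x, |h x| ≤ C) (hk : ∀ x, |k x| ≤ C)
    (hle : ∀ x, k x ≤ f x + g x + h x) : m k ≤ m f + m g + m h := by
  have bf : Bd f := ⟨C, hf⟩
  have bg : Bd g := ⟨C, hg⟩
  have bh : Bd h := ⟨C, hh⟩
  have bk : Bd k := ⟨C, hk⟩
  have h1 := hm.mono bk ((bf.add bg).add bh) hle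
  rwa [hm.add _ _ (bf.add bg) bh, hm.add _ _ bf bg] at h1

theorem holds_GAM : StGAM := by
  intro m hm hidem hdil c hc hle
  have hM := hm.mean
  obtain ⟨E, hE⟩ : ∃ E : ℕ → ℕ → ℝ, E = fun x p => 1 + c (x + p) * c (x * p) := ⟨_, rfl⟩
  have hcc : ∀ x y : ℕ, |1 + c x * c y| ≤ 2 := by
    intro x y
    rcases hc x with h1 | h1 <;> rcases hc y with h2 | h2 <;> rw [h1, h2] <;> norm_num
  have hEb : ∀ x p, |E x p| ≤ 2 := by
    intro x p
    rw [hE]
    exact hcc _ _
  have hEB : ∀ x, Bd (E x) := fun x => ⟨2, hEb x⟩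
  obtain ⟨E1, hE1⟩ : ∃ E1 : ℕ → ℝ, E1 = fun x => m (E x) := ⟨_, rfl⟩
  have hE1b : ∀ x, |E1 x| ≤ 2 := by
    intro x
    rw [hE1]
    exact hM.abs_le (hEb x)
  have hE1B : Bd E1 := ⟨2, hE1b⟩
  have hE1le : m E1 ≤ 0 := by
    rw [hE1, hE]
    exact hle
  have hid : ∀ f : ℕ → ℝ, m (fun a => m (fun b => f (a + b))) = m f := by
    intro f
    have h1 := congrFun hidem f
    rwa [mul_def] at h1
  obtain ⟨G, hG⟩ : ∃ G : ℕ → ℕ → ℕ → ℝ, G = fun n z T => 1 + c ((n + z) * T) * c (n * n * z * T) :=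
    ⟨_, rfl⟩
  have hGb : ∀ n z T, |G n z T| ≤ 2 := by
    intro n z T
    rw [hG]
    exact hcc _ _
  have hpt : ∀ n z T, G n z T ≤ E n (z + T) + E (n * z) (n * T) + E (n + z) T := by
    intro n z T
    rw [hG, hE]
    simp only
    have e1 : n + (z + T) = n + z + T := by ring
    have e2 : n * (z + T) = n * z + n * T := by ring
    have e3 : n * z * (n * T) = n * n * z * T := by ring
    rw [e1, e2, e3]
    rcases hc (n + z + T) with h1 | h1 <;> rcases hc (n * z + n * T) with h2 | h2 <;>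
      rcases hc (n * n * z * T) with h3 | h3 <;> rcases hc ((n + z) * T) with h4 | h4 <;>
      rw [h1, h2, h3, h4] <;> norm_num
  have hint1 : ∀ n z, m (G n z) ≤ m (fun T => E n (z + T)) + m (fun T => E (n * z) (n * T)) +
      m (fun T => E (n + z) T) := by
    intro n z
    exact add3 hM (C := 2) (fun T => hEb _ _) (fun T => hEb _ _) (fun T => hEb _ _) (hGb n z) (hpt n z)
  have hint2 : ∀ n, m (fun z => m (G n z)) ≤ m (fun z => m (fun T => E n (z + T))) +
      m (fun z => m (fun T => E (n * z) (n * T))) + m (fun z => m (fun T => E (n + z) T)) := by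
    intro n
    exact add3 hM (C := 2) (fun z => hM.abs_le fun T => hEb _ _) (fun z => hM.abs_le fun T => hEb _ _)
      (fun z => hM.abs_le fun T => hEb _ _) (fun z => hM.abs_le (hGb n z)) (hint1 n)
  have hint3 : m (fun n => m (fun z => m (G n z))) ≤
      m (fun n => m (fun z => m (fun T => E n (z + T)))) +
      m (fun n => m (fun z => m (fun T => E (n * z) (n * T)))) +
      m (fun n => m (fun z => m (fun T => E (n + z) T))) := by
    exact add3 hM (C := 2) (fun n => hM.abs_le fun z => hM.abs_le fun T => hEb _ _)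
      (fun n => hM.abs_le fun z => hM.abs_le fun T => hEb _ _)
      (fun n => hM.abs_le fun z => hM.abs_le fun T => hEb _ _)
      (fun n => hM.abs_le fun z => hM.abs_le (hGb n z)) hint2
  have s1 : m (fun n => m (fun z => m (fun T => E n (z + T)))) = m E1 := by
    have e1 : (fun n => m (fun z => m (fun T => E n (z + T)))) = E1 := by
      funext n
      rw [hid (E n), hE1]
    rw [e1]
  have s3 : m (fun n => m (fun z => m (fun T => E (n + z) T))) = m E1 := by
    have e1 : (fun n => m (fun z => m (fun T => E (n + z) T))) = fun n => m (fun z => E1 (n + z)) := by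
      rw [hE1]
    rw [e1, hid E1]
  have s2 : m (fun n => m (fun z => m (fun T => E (n * z) (n * T)))) = m E1 := by
    have e1 : m (fun n => m (fun z => m (fun T => E (n * z) (n * T)))) = m (fun _ => m E1) := by
      refine hm.congr_pos ⟨2, fun n => hM.abs_le fun z => hM.abs_le fun T => hEb _ _⟩ (Bd.const _) ?_
      intro n hn
      have e2 : (fun z => m (fun T => E (n * z) (n * T))) = fun z => E1 (n * z) := by
        funext z
        rw [hdil n hn (E (n * z)) (hEB _), hE1]
      rw [e2, hdil n hn E1 hE1B]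
    rw [e1, hM.const]
  rw [s1, s2, s3] at hint3
  have hfin : m (fun n => m (fun z => m (G n z))) ≤ 0 := by linarith
  rw [hG] at hfin
  exact hfin

end Pool.Agent.Helper42.RS
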